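import Pool.Agent.V8H82.HP.Gram

set_option autoImplicit false

/-!
# Groups with a boundary matrix whose hermitian part is dominated by its diagonal are of type FF

For a boundary matrix `A` of a free resolution of the trivial module of a torsion-free group `G` and
any matrix `C` over the real group ring the skew part of `A C` plays no role: if the hermitian part
`A C + (A C)^*` is, up to a summand `P P^*`, dominated by its diagonal in the sense of quadratic forms
(equality allowed), the kernel of `A` is contained in the kernel of this part, which is a free direct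
summand, and the question whether the image of `A` is free is reduced to the restriction of `A` to
this summand. The condition can always be satisfied with any factor larger than one.

The definitions are in `Pool.Agent.V8H82.HP`: `others`, `FormDominated` (Form), `realVec` (Lat),
`Tame` (Tame), `PartOfBasis`, `SpansKernel` (Sum), and in the starting files: `Bd`, `FFle`
(TH57.FF.BdDefs), `toReal` (TH57.Thr.Defs), `adj` (TH6.LF.Bar).
-/

namespace Pool.Agent.Results.MP_d19827_al.HermitianPart

open Matrix TH57.FF TH57.Thr TH6.LF Pool.Agent.V8H82.HP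

/-- `G` is torsion-free. -/
def TorsionFree (G : Type) [Group G] : Prop := ∀ g : G, IsOfFinOrder g → g = 1

/-- The matrix of the absolute values of the coefficients of `H` other than the coefficients of `1`
in the diagonal entries is at most `c` times these diagonal coefficients in the sense of quadratic
forms. For `c = 1` this is `FormDominated H`. -/
def FormBound {G : Type} [Group G] {κ : Type} (c : ℝ) (H : Matrix κ κ (MonoidAlgebra ℝ G)) : Prop :=
  ∀ (z : κ × G → ℝ) (L : Finset (κ × G)), (∀ u, 0 ≤ z u) →
    ∑ u ∈ L, ∑ v ∈ L, z u * z v * others H u v ≤ c * ∑ u ∈ L, z u ^ 2 * (H u.1 u.1).coeff 1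

/-- `Bd G n A` means that `A` is the matrix of `F_{n+1} → F_n` in an exact sequence
`F_{n+1} → F_n → ... → F_0 → ℤ → 0` of `ℤG`-modules in which all `F_i` are free with finite bases.
`FFle G n` means that `ℤ` has a resolution of length at most `n` by finitely generated free modules.
Row vectors over `ℤG` are multiplied by matrices from the right.

(1) Let `G` be torsion-free and `A` the matrix of `F_{n+1} → F_n`. If `A` is tame, `G` is of type FF,
with a resolution of length `n + 1`.

(2) If the conjugate transpose of the matrix `A` of `F_{n+2} → F_{n+1}` is tame and the cokernel of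
`A` is projective, `G` is of type FF, with a resolution of length `n + 2`.

(3) Let `G` be torsion-free and `H` a selfadjoint matrix over `ℝG` which is dominated by its diagonal
in the sense of quadratic forms. Then its kernel on the row vectors over `ℤG` is spanned by the first
rows of an invertible matrix over `ℤG`; so it is free, with a free complement. All selfadjoint
matrices over `ℝG` which are weakly diagonally dominant are dominated in this sense.

(4) Let `G` be torsion-free. A matrix `A` over `ℤG` is tame if `A C + (A C)^* = H + P P^*` over `ℝG`,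
where `H` is dominated in the sense of quadratic forms and all vectors over `ℤG` in the kernel of `H`
are in the kernel of `A` (for instance, if there are no nonzero such vectors); or if the Gram matrix
`A D A^*` of its rows is dominated for a diagonal matrix `D` of positive real numbers.

(5) The constant is sharp. Let `G` be any group and `c > 1`. The matrix of `F_{n+2} → F_{n+1}` can be
replaced by a square matrix `A` for which `H = A + A^*` satisfies the condition with the factor
`c`. -/
theorem result :
    (∀ (G : Type) [Group G], TorsionFree G → ∀ (n m k : ℕ)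
      (A : Matrix (Fin m) (Fin k) (MonoidAlgebra ℤ G)), Bd G n A → Tame A → FFle G (n + 1)) ∧
    (∀ (G : Type) [Group G], TorsionFree G → ∀ (n m k : ℕ)
      (A : Matrix (Fin m) (Fin k) (MonoidAlgebra ℤ G)), Bd G (n + 1) A → Tame (adj A) →
      Module.Projective (MonoidAlgebra ℤ G)
        ((Fin k → MonoidAlgebra ℤ G) ⧸ LinearMap.range A.vecMulLinear) → FFle G (n + 2)) ∧
    ((∀ (G : Type) [Group G], TorsionFree G → ∀ (m : ℕ)
      (H : Matrix (Fin m) (Fin m) (MonoidAlgebra ℝ G)), adj H = H → FormDominated H →
      ∃ (r : ℕ) (W : Matrix (Fin r) (Fin m) (MonoidAlgebra ℤ G)), PartOfBasis W ∧ SpansKernel W H) ∧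
    (∀ (G : Type) [Group G] (m : ℕ) (H : Matrix (Fin m) (Fin m) (MonoidAlgebra ℝ G)), adj H = H →
      (∀ (u : Fin m × G) (M : Finset (Fin m × G)),
        ∑ v ∈ M, others H u v ≤ (H u.1 u.1).coeff 1) → FormDominated H)) ∧
    (∀ (G : Type) [Group G], TorsionFree G → ∀ (m k : ℕ)
      (A : Matrix (Fin m) (Fin k) (MonoidAlgebra ℤ G)),
      (∀ (p : ℕ) (H : Matrix (Fin m) (Fin m) (MonoidAlgebra ℝ G))
        (C : Matrix (Fin k) (Fin m) (MonoidAlgebra ℝ G))
        (P : Matrix (Fin m) (Fin p) (MonoidAlgebra ℝ G)), FormDominated H →
        toReal A * C + adj (toReal A * C) = H + P * adj P →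
        (∀ y : Fin m → MonoidAlgebra ℤ G, realVec y ᵥ* H = 0 → y ᵥ* A = 0) → Tame A) ∧
      ∀ d : Fin k → ℝ, (∀ j, 0 < d j) →
        FormDominated (toReal A * Matrix.diagonal (fun j => MonoidAlgebra.single (1 : G) (d j)) *
          adj (toReal A)) → Tame A) ∧
    (∀ (G : Type) [Group G] (n m k : ℕ) (A : Matrix (Fin m) (Fin k) (MonoidAlgebra ℤ G)),
      Bd G (n + 1) A → ∀ c : ℝ, 1 < c →
      ∃ (q : ℕ) (A' : Matrix (Fin q) (Fin q) (MonoidAlgebra ℤ G)), Bd G (n + 1) A' ∧
        FormBound c (toReal A' + adj (toReal A'))) := by
  have htf' : ∀ (G : Type) [Group G], TorsionFree G →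
      ∀ g : G, ∀ k : ℕ, 0 < k → g ^ k = 1 → g = 1 := fun G _ htf g k hk h =>
    htf g (isOfFinOrder_iff_pow_eq_one.2 ⟨k, hk, h⟩)
  refine ⟨?_, ?_, ⟨?_, ?_⟩, ?_, ?_⟩
  · intro G _ htf n m k A hA h
    exact FF_tame_row (htf' G htf) hA h
  · intro G _ htf n m k A hA h hP
    exact FF_tame_col (htf' G htf) hA h hP
  · intro G _ htf m H hs h
    exact exists_spans (htf' G htf) H hs h
  · intro G _ m H hs h
    exact formDominated_of_rows H hs h
  · intro G _ htf m k A
    exact ⟨fun p H C P h1 h2 h3 => tame_of_ker (htf' G htf) A H C P h1 h2 h3,
      fun d hd h => tame_of_gram (htf' G htf) A d hd h⟩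
  · intro G _ n m k A hA c hc
    obtain ⟨q, A', h1, h2⟩ := sharp n A hA c hc
    exact ⟨q, A', h1, h2⟩

end Pool.Agent.Results.MP_d19827_al.HermitianPart
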