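import Pool.Agent.V8H47.MG.Serre

set_option autoImplicit false

/-!
# Serre's conjecture and the space of marked groups

Groups of type FP are torsion-free, and a group `G` of type FP for which all finitely generated
projective `ℤG`-modules are stably free is of type FF. We study the set of the groups with this
property in the compact space of marked groups, whose points are the normal subgroups `N` of the free
group `F` of rank `s`.

1. The set is a `G_δ`. So for each set `X` of marked groups with the property, generic groups in the
   closure of `X` have the property, and are of type FF if they are of type FP. In every set `C` of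
   marked groups either generic groups have the property, or there is a single matrix `E` over `ℤF`
   which becomes idempotent over `ℤ[F/N]`, with an image which is not stably free, for all `N` in a
   nonempty relatively open subset of `C`.
2. Let `C` be a class of groups. The property holds for all torsion-free groups which are locally in
   `C` if and only if for each matrix `E` over `ℤF` there are finitely many words `T`, a number `m`
   and finitely many pairs `U`, `V` of matrices over `ℤF` such that for every `Γ` in `C` and every
   homomorphism from `F` to `Γ` for which `E` becomes idempotent and the images of the words of `T`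
   have order `1` or more than `m`, one of the pairs shows that the image of `E` is stably free. So
   this uniform statement implies that all groups of type FP which are locally in `C` are of type FF.
   For the class of the finite groups it is a statement on the integral group rings of finite groups,
   and the conclusion holds for all residually finite groups of type FP.
3. If a group of type FP is not of type FF there are extremal counterexamples: marked groups `F/N`
   with a matrix `E` as in 1., with `F/N` a subgroup of the given group; with `F/N` such that `E` is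
   stably free over all proper torsion-free quotients of `F/N`; and with `F/N` the largest
   torsion-free quotient of a finitely presented group.

The definitions are in `Pool.Agent.V8H47.MG`: `push` (Defs), `Marked`, `TorsionFree` (Space),
`LocallyIn`, `NoShortTorsion` (Main), `tfQuot` (Ext), `FP`, `FF` (FP), `Stab`, `Works`, `UniformStF`,
`StFAt` (Serre); `StF` (stably free) and `AllStF` are in `Pool.Agent.V8H47.RD`.
-/

namespace Pool.Agent.Results.MP_d19827_al.MarkedGroups

open Pool.Agent.V8H47.MG Pool.Agent.V8H47.RD Filter Topology

/-- `E` is idempotent modulo `N` but the module given by it is not stably free -/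
def Bad {s n : ℕ} (E : Matrix (Fin n) (Fin n) (MonoidAlgebra ℤ (FreeGroup (Fin s))))
    (N : Marked s) : Prop :=
  push N.mk E * push N.mk E = push N.mk E ∧ ¬ StFAt E N

/-- the set of the marked groups with the property, and generic marked groups -/
def Generic : Prop :=
  ∀ s : ℕ, CompactSpace (Marked s) ∧ T2Space (Marked s) ∧
    (∀ C : Set (Marked s), IsClosed C → BaireSpace C) ∧
    IsGδ {N : Marked s | AllStF N.Grp} ∧
    (∀ X : Set (Marked s), (∀ N ∈ X, AllStF N.Grp) →
      ∀ᶠ N : closure X in residual (closure X),
        AllStF N.1.Grp ∧ (FP N.1.Grp → FF N.1.Grp)) ∧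
    ∀ C : Set (Marked s), (∀ᶠ N : C in residual C, AllStF N.1.Grp ∧ (FP N.1.Grp → FF N.1.Grp)) ∨
      ∃ (n : ℕ) (E : Matrix (Fin n) (Fin n) (MonoidAlgebra ℤ (FreeGroup (Fin s))))
        (O : Set (Marked s)), IsOpen O ∧ (O ∩ C).Nonempty ∧ ∀ N ∈ O ∩ C, Bad E N

/-- the compactness theorem -/
def Compactness : Prop :=
  (∀ C : GroupClass,
    ((∀ (G : Type) (_ : Group G), TorsionFree G → LocallyIn C G → AllStF G) ↔ UniformStF C) ∧
    (UniformStF C → ∀ (G : Type) (_ : Group G), LocallyIn C G → FP G → FF G)) ∧
  (∀ (G : Type) [Group G], LocallyIn (fun _ _ => True) G) ∧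
  ∀ (G : Type) [Group G] [Group.ResiduallyFinite G], LocallyIn (fun Γ _ => Finite Γ) G

/-- extremal counterexamples -/
def Extremal : Prop :=
  (∀ (G : Type) [Group G], FP G → ¬ FF G →
    ∃ (s n : ℕ) (E : Matrix (Fin n) (Fin n) (MonoidAlgebra ℤ (FreeGroup (Fin s)))),
      ∃ N M : Marked s, ∃ D : Finset (FreeGroup (Fin s)),
        (tfQuot (D : Set (FreeGroup (Fin s)))).1 ≤ N.1 ∧ N.1 ≤ M.1 ∧
        (∃ ψ : N.Grp →* G, Function.Injective ψ) ∧ TorsionFree M.Grp ∧
        Bad E (tfQuot (D : Set (FreeGroup (Fin s)))) ∧ Bad E N ∧ Bad E M ∧
        ∀ M' : Marked s, M.1 < M'.1 → TorsionFree M'.Grp → StFAt E M') ∧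
  ((∀ (s : ℕ) (D : Finset (FreeGroup (Fin s))),
      AllStF (tfQuot (D : Set (FreeGroup (Fin s)))).Grp) →
    ∀ (G : Type) [Group G], FP G → FF G)

/-- Serre's conjecture and the space of marked groups. -/
theorem result :
    (∀ (G : Type) [Group G], FP G → TorsionFree G) ∧
    (∀ (G : Type) [Group G], AllStF G → FP G → FF G) ∧
    Generic ∧ Compactness ∧ Extremal := by
  have hset : ∀ s : ℕ, {N : Marked s | AllStF N.Grp} = {N : Marked s | Onto ℤ N.Grp} := by
    intro s
    ext N
    exact (onto_iff_allStF N.Grp).symm
  refine ⟨fun G _ h => torsionFree_of_FP h, fun G _ h h' => FF_of_FP h h', ?_, ?_, ?_⟩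
  · intro s
    refine ⟨inferInstance, inferInstance, fun C hC => baire_of_isClosed hC, ?_, ?_, ?_⟩
    · rw [hset]
      exact isGδ_onto
    · intro X hX
      have h1 := generic (R := ℤ) X fun N hN => (onto_iff_allStF N.Grp).2 (hX N hN)
      filter_upwards [h1] with N hN
      have h2 := (onto_iff_allStF N.1.Grp).1 hN
      exact ⟨h2, FF_of_FP h2⟩
    · intro C
      rcases dichotomy (R := ℤ) C with h | ⟨O, n, E, hO, hne, h⟩
      · left
        filter_upwards [h] with N hN
        have h2 := (onto_iff_allStF N.1.Grp).1 hN
        exact ⟨h2, FF_of_FP h2⟩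
      · right
        refine ⟨n, E, O, hO, hne, fun N hN => ?_⟩
        obtain ⟨h1, h2⟩ := h N hN
        exact ⟨h1, fun h3 => h2 ((stFAt_iff E N h1).1 h3)⟩
  · refine ⟨fun C => ?_, fun G _ => locallyIn_all G,
      fun G _ _ => locallyIn_finite_of_residuallyFinite G⟩
    have h1 : (∀ (G : Type) (_ : Group G), TorsionFree G → LocallyIn C G → AllStF G) ↔
        UniformStF C := by
      rw [uniformStF_iff, ← compactness C]
      exact ⟨fun h G _ h1 h2 => (onto_iff_allStF G).2 (h G _ h1 h2),
        fun h G _ h1 h2 => (onto_iff_allStF G).1 (h G _ h1 h2)⟩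
    exact ⟨h1, fun h G _ h2 h3 => FF_of_FP (h1.2 h G _ (torsionFree_of_FP h3) h2) h3⟩
  · constructor
    · intro G _ hFP hFF
      have htf := torsionFree_of_FP hFP
      have hno : ¬ Onto ℤ G := fun h => hFF (FF_of_FP ((onto_iff_allStF G).1 h) hFP)
      obtain ⟨s, n, E, N, hN, ψ, hψ⟩ := exists_counter_embedded htf hno
      obtain ⟨M, hNM, hM, hmax⟩ := exists_maximal E N hN
      obtain ⟨D, -, hD1, hD2⟩ := exists_finite_presentation E N hN
      have hbad : ∀ N' : Marked s, Counter E N' → Bad E N' := fun N' h =>
        ⟨h.2.1, fun h3 => h.2.2 ((stFAt_iff E N' h.2.1).1 h3)⟩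
      refine ⟨s, n, E, N, M, D, hD1, hNM, ⟨ψ, hψ⟩, hM.1, hbad _ hD2, hbad _ hN, hbad _ hM,
        fun M' h1 h2 => ?_⟩
      exact (stFAt_iff E M' (idem_mono (N := M) (M := M') h1.le E hM.2.1)).2 (hmax M' h1 h2)
    · intro h G _ hFP
      have h1 : ∀ (G : Type) (_ : Group G), TorsionFree G → Onto ℤ G :=
        onto_all_iff.2 fun s D => (onto_iff_allStF _).2 (h s D)
      exact FF_of_FP ((onto_iff_allStF G).1 (h1 G _ (torsionFree_of_FP hFP))) hFP

end Pool.Agent.Results.MP_d19827_al.MarkedGroups
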