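import Pool.Agent.V8H7.KD.FFt

set_option autoImplicit false

/-!
# Groups with a boundary matrix dominated in a weighted `ℓ^p` norm are of type FF

A torsion-free group with a (partial) free resolution of the trivial module one of whose boundary
matrices has, in each row, a coefficient of its own such that these coefficients dominate the
infinite matrix of the norms of all other coefficients in the sense of a weighted `ℓ^p` norm,
equality allowed, is of type FF. Row dominance is the case `p = 1`, `w = 1`; for `p = 2`, `w = 1`,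
`μ` constant, the condition says that the operator norm of the matrix of absolute values is at most
`μ`. With any factor larger than one in place of one all boundary matrices can be brought to such a
form.
-/

namespace Pool.Agent.Results.MP_d19827_al.NormDominatedBoundary

open Matrix TH57.FF

variable {G : Type} [Group G]

/-- A norm on the ring of integers: definite, subadditive, even and submultiplicative, for example
the absolute value. -/
structure IntNorm (ν : ℤ → ℝ) : Prop where
  zero : ν 0 = 0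
  pos : ∀ x, x ≠ 0 → 0 < ν x
  add : ∀ x y, ν (x + y) ≤ ν x + ν y
  neg : ∀ x, ν (-x) = ν x
  mul : ∀ x y, ν (x * y) ≤ ν x * ν y

/-- the absolute value -/
def absNorm (x : ℤ) : ℝ := |(x : ℝ)|

open Classical in
/-- The infinite matrix of the norms of the coefficients of the square matrix `A`, without the
coefficients of `1` in the diagonal entries: the entry at `(i, g), (j, h)` is the norm of the
coefficient of `g⁻¹h` in `A i j`. -/
noncomputable def others {κ : Type} (ν : ℤ → ℝ) (A : Matrix κ κ (MonoidAlgebra ℤ G))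
    (u v : κ × G) : ℝ :=
  if u = v then 0 else ν ((A u.1 v.1).coeff (u.2⁻¹ * v.2))

/-- Multiplication by the coefficient of `1` in the diagonal entry `A i i` multiplies norms by at
least `μ i` (for the absolute value: `μ i` is at most the absolute value of this coefficient). -/
def Multipliers {κ : Type} (ν : ℤ → ℝ) (A : Matrix κ κ (MonoidAlgebra ℤ G)) (μ : κ → ℝ) : Prop :=
  (∀ i, 0 ≤ μ i) ∧ ∀ i y, ν y * μ i ≤ ν (y * (A i i).coeff 1)

/-- The matrix `others` is at most `c` times the diagonal matrix of the `μ i` in the sense of the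
`ℓ^p` norm with the weights `w`. -/
def Bounded {κ : Type} (ν : ℤ → ℝ) (A : Matrix κ κ (MonoidAlgebra ℤ G)) (μ : κ → ℝ)
    (p : ℝ) (w : κ × G → ℝ) (c : ℝ) : Prop :=
  ∀ (z : κ × G → ℝ) (L M : Finset (κ × G)), (∀ u, 0 ≤ z u) →
    ∑ v ∈ M, w v * (∑ u ∈ L, z u * others ν A u v) ^ p
      ≤ c ^ p * ∑ u ∈ L, w u * (z u * μ u.1) ^ p

/-- The square matrix `A` is dominated by its diagonal (equality allowed) for some exponent and some
weights. -/
def Dominated {κ : Type} (ν : ℤ → ℝ) (A : Matrix κ κ (MonoidAlgebra ℤ G)) : Prop :=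
  ∃ (μ : κ → ℝ) (p : ℝ) (w : κ × G → ℝ), Multipliers ν A μ ∧ 0 < p ∧ (∀ v, 0 < w v) ∧
    Bounded ν A μ p w 1

/-- `A'` is the square matrix whose row `σ i` is `(g i)⁻¹` times row `i` of `A`, with zeros in all
other rows, for an injective map `σ` from the rows to the columns of `A` and `g i ∈ G`. So the
coefficient of `g i` in the entry `A i (σ i)` becomes the coefficient of `1` in a diagonal entry. -/
def Placed {ι κ : Type} (A : Matrix ι κ (MonoidAlgebra ℤ G))
    (A' : Matrix κ κ (MonoidAlgebra ℤ G)) : Prop :=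
  ∃ (σ : ι → κ) (g : ι → G), Function.Injective σ ∧
    (∀ i j, A' (σ i) j = MonoidAlgebra.single (g i)⁻¹ 1 * A i j) ∧ ∀ j, (∀ i, σ i ≠ j) → A' j = 0

theorem off_eq_others {κ : Type} [DecidableEq κ] [DecidableEq G] (ν : ℤ → ℝ)
    (A : Matrix κ κ (MonoidAlgebra ℤ G)) (u v : κ × G) :
    V8H7.KD.off ν A u v = others ν A u v := by
  unfold V8H7.KD.off others V8H7.KD.ent
  by_cases h : u = v
  · simp only [if_pos h]
  · simp only [if_neg h]

theorem dmd_of_dominated {κ : Type} [DecidableEq κ] [DecidableEq G] (ν : ℤ → ℝ)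
    (A : Matrix κ κ (MonoidAlgebra ℤ G)) (h : Dominated ν A) : ∃ μ, V8H7.KD.Dmd ν A μ := by
  obtain ⟨μ, p, w, h1, hp, hw, h2⟩ := h
  refine ⟨μ, h1.1, h1.2, p, w, hp, hw, fun z L M hz => ?_⟩
  have h3 := h2 z L M hz
  rw [Real.one_rpow, one_mul] at h3
  simp only [off_eq_others]
  exact h3

/-- `Bd G n A` means that `A` is the matrix of `F_{n+1} → F_n` in an exact sequence
`F_{n+1} → F_n → ... → F_0 → ℤ → 0` of `ℤG`-modules in which all `F_i` are free with finite bases.
`FFle G n` means that `ℤ` has a resolution of length at most `n` by finitely generated free modules.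

(1) Let `G` be torsion-free and `A` the matrix of `F_{n+1} → F_n`. If `A` can be placed in a square
matrix which is dominated for some norm on `ℤ`, `G` is of type FF, with a resolution of length
`n + 1`.

(2) If the conjugate transpose of the matrix `A` of `F_{n+2} → F_{n+1}` can be placed in a dominated
square matrix and the cokernel of `A` is projective, `G` is of type FF, with a resolution of length
`n + 2`.

(3) The constant is sharp. Let `G` be any group and `c > 1`. The matrix of `F_{n+2} → F_{n+1}` can be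
replaced by a square matrix in which, with `μ i ≥ 0` the coefficient of `1` in the `i`-th diagonal
entry, all row sums and all column sums of `others` are at most `c` times the `μ i`; it satisfies the
weighted `ℓ^p` condition with the factor `c` for all `p ≥ 1`, with suitable weights. -/
theorem result :
    (∀ (G : Type) [Group G], (∀ g : G, IsOfFinOrder g → g = 1) → ∀ (ν : ℤ → ℝ), IntNorm ν →
      ∀ (n m k : ℕ) (A : Matrix (Fin m) (Fin k) (MonoidAlgebra ℤ G)), Bd G n A →
      (∃ A', Placed A A' ∧ Dominated ν A') → FFle G (n + 1)) ∧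
    (∀ (G : Type) [Group G], (∀ g : G, IsOfFinOrder g → g = 1) → ∀ (ν : ℤ → ℝ), IntNorm ν →
      ∀ (n m k : ℕ) (A : Matrix (Fin m) (Fin k) (MonoidAlgebra ℤ G)), Bd G (n + 1) A →
      (∃ A', Placed (TH6.LF.adj A) A' ∧ Dominated ν A') →
      Module.Projective (MonoidAlgebra ℤ G)
        ((Fin k → MonoidAlgebra ℤ G) ⧸ LinearMap.range A.vecMulLinear) → FFle G (n + 2)) ∧
    (∀ (G : Type) [Group G] (n m k : ℕ) (A : Matrix (Fin m) (Fin k) (MonoidAlgebra ℤ G)),
      Bd G (n + 1) A → ∀ c : ℝ, 1 < c →
      ∃ (q : ℕ) (A' : Matrix (Fin q) (Fin q) (MonoidAlgebra ℤ G)), Bd G (n + 1) A' ∧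
        Multipliers absNorm A' (fun i => (((A' i i).coeff 1 : ℤ) : ℝ)) ∧
        (∀ u (M : Finset (Fin q × G)), ∑ v ∈ M, others absNorm A' u v
          ≤ c * (((A' u.1 u.1).coeff 1 : ℤ) : ℝ)) ∧
        (∀ v (L : Finset (Fin q × G)), ∑ u ∈ L, others absNorm A' u v
          ≤ c * (((A' v.1 v.1).coeff 1 : ℤ) : ℝ)) ∧
        ∀ p : ℝ, 1 ≤ p → ∃ w : Fin q × G → ℝ, (∀ v, 0 < w v) ∧
          Bounded absNorm A' (fun i => (((A' i i).coeff 1 : ℤ) : ℝ)) p w c) := by
  classical
  have htf' : ∀ (G : Type) [Group G], (∀ g : G, IsOfFinOrder g → g = 1) →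
      ∀ g : G, ∀ k : ℕ, 0 < k → g ^ k = 1 → g = 1 := fun G _ htf g k hk h =>
    htf g (isOfFinOrder_iff_pow_eq_one.2 ⟨k, hk, h⟩)
  refine ⟨?_, ?_, ?_⟩
  · rintro G _ htf ν hν n m k A hA ⟨A', h1, h2⟩
    obtain ⟨μ, h3⟩ := dmd_of_dominated ν A' h2
    exact V8H7.KD.FF_row (htf' G htf) ⟨hν.zero, hν.pos, hν.add, hν.neg, hν.mul⟩ hA h1 h3
  · rintro G _ htf ν hν n m k A hA ⟨A', h1, h2⟩ hP
    obtain ⟨μ, h3⟩ := dmd_of_dominated ν A' h2
    exact V8H7.KD.FF_col (htf' G htf) ⟨hν.zero, hν.pos, hν.add, hν.neg, hν.mul⟩ hA h1 h3 hP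
  · intro G _ n m k A hA c hc
    obtain ⟨q, A', h1, h2, h3⟩ := Pool.Agent.R719.DD.Bd_dom n A hA c hc
    have hc0 : 0 < c := by linarith
    obtain ⟨g1, g2, g3⟩ := V8H7.KD.dom_sums A' c hc0 h2 h3
    refine ⟨q, A', h1, ⟨g1, fun i y => ?_⟩, ?_, ?_, ?_⟩
    · unfold absNorm
      push_cast
      rw [abs_mul, abs_of_nonneg (g1 i)]
    · intro u M
      have h6 := g2 u M
      simp only [off_eq_others] at h6
      exact h6
    · intro v L
      have h6 := g3 v L
      simp only [off_eq_others] at h6
      exact h6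
    · intro p hp
      obtain ⟨w, hw, h4⟩ := V8H7.KD.schur0 (V8H7.KD.off (fun x : ℤ => |(x : ℝ)|) A')
        (fun u => (((A' u.1 u.1).coeff 1 : ℤ) : ℝ)) c hc0
        (fun u v => V8H7.KD.off_nonneg V8H7.KD.isNorm_abs _ u v) (fun u => g1 u.1) g2 g3 p hp
      refine ⟨w, hw, fun z L M hz => ?_⟩
      have h6 := h4 z L M hz
      simp only [off_eq_others] at h6
      exact h6

end Pool.Agent.Results.MP_d19827_al.NormDominatedBoundary
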