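import Pool.Agent.V8H47.RD.FF

set_option autoImplicit false

/-!
# Groups with a boundary matrix dominated by its part over subgroups

Let `A` be a boundary matrix of a free resolution of the trivial module `ℤ` of a group `G`. The rows
and columns of `A` are placed at points `a i`, `b j` of a set `V` with an action of `G`; the
coefficient of `g` in the `i`-th coordinate of a row vector then sits at the point `g • a i`. So a row
vector is divided into parts, one for each point of `V`. For `V = G/H` and all `a i`, `b j` equal to
the coset `H` the parts are the parts over the cosets of `H`.

`A` is dominated if for vectors `y` at one point `v` the part of `y A` at another point `u` is at most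
`E v u` times the part of `y A` at `v`, in some norm, where the kernel `E` is invariant and does not
increase some weighted `ℓ^p` norm (equality allowed). Then the image of `A` is a direct sum of modules
induced from subgroups which contain the stabilisers of the points with finite index, and questions
on `G` are reduced to these subgroups. For a free action and a torsion-free group they are trivial.

The definitions are in `Pool.Agent.V8H47.RD`: `cut`, `part` (Cut), `IsNorm`, `Dom` (Ker), `Contr`
(Flow), `incl` (Str), `Dominated`, `Over` (Main), `cosetPart`, `lt`, `SubDominated` (Sub), `StF`
(Stab), `AllStF` (FF), and in the starting files: `Bd`, `FFle`.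
-/

namespace Pool.Agent.Results.MP_d19827_al.SubgroupDominance

open Pool.Agent.V8H47.RD TH57.FF

variable {G : Type} [Group G] {ι κ V : Type} [Fintype ι] [MulAction G V]

/-- The row space of `A` is the direct sum of modules induced from the row spaces of matrices over
`ℤ (K i)`, where `K i` contains the stabiliser of `a i` with finite index. -/
def RowSpaceInduced (a : ι → V) (A : Matrix ι κ (MonoidAlgebra ℤ G)) : Prop :=
  ∃ K : ι → Subgroup G, (∀ i, Over (K i) (a i)) ∧ ∃ B : ∀ i, Matrix ι κ (MonoidAlgebra ℤ (K i)),
    Nonempty (LinearMap.range A.vecMulLinear ≃ₗ[MonoidAlgebra ℤ G]
      ∀ i, LinearMap.range ((B i).map (incl (K i))).vecMulLinear)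

/-- `Bd G n A` means that `A` is the matrix of `F_{n+1} → F_n` in an exact sequence
`F_{n+1} → F_n → ... → F_0 → ℤ → 0` of `ℤG`-modules in which all `F_i` are free with finite bases.
`FFle G n` means that `ℤ` has a resolution of length at most `n` by finitely generated free modules.

Let `A` be dominated. (1) The image of `A` is a direct sum of modules induced from row spaces of
matrices over `ℤK`, where `K` contains the stabiliser of one of the points `a i` with finite index.

(2) If `G` is torsion-free and the stabilisers of the `a i` are trivial, `G` is of type FF, with a
resolution of length `n + 1`.

(3) If the image of `A` is projective and for all subgroups `K` which contain the stabiliser of some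
`a i` with finite index all finitely generated projective `ℤK`-modules are stably free, `G` is of type
FF, with a resolution of length `n + 2`.

(4) Let `H` be a subgroup. If for all vectors `y` over `ℤH` the part of `y A` over each coset `c ≠ H`
is at most `e c` times the part over `H`, in some norm invariant under left translations, where
`∑ e c ≤ 1`, if the image of `A` is projective and for all subgroups `K` which contain `H` with
finite index all finitely generated projective `ℤK`-modules are stably free, `G` is of type FF, with a
resolution of length `n + 2`. -/
theorem result (G : Type) [Group G] (n m k : ℕ) (A : Matrix (Fin m) (Fin k) (MonoidAlgebra ℤ G))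
    (hA : Bd G n A) :
    (∀ (V : Type) [MulAction G V] (a : Fin m → V) (b : Fin k → V), Dominated a b A →
      RowSpaceInduced a A ∧
      ((∀ g : G, IsOfFinOrder g → g = 1) → (∀ i, MulAction.stabilizer G (a i) = ⊥) →
        FFle G (n + 1)) ∧
      (Module.Projective (MonoidAlgebra ℤ G) (LinearMap.range A.vecMulLinear) →
        (∀ (K : Subgroup G) (i : Fin m), Over K (a i) → AllStF K) → FFle G (n + 2))) ∧
    ∀ H : Subgroup G, SubDominated H A →
      Module.Projective (MonoidAlgebra ℤ G) (LinearMap.range A.vecMulLinear) →
      (∀ K : Subgroup G, H ≤ K → (H.subgroupOf K).FiniteIndex → AllStF K) → FFle G (n + 2) :=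
  ⟨fun _ _ _ _ h => ⟨rows h, fun htf ha => FF_free hA htf ha h, fun hP hK => FF_rel hA h hP hK⟩,
    fun H h hP hK => FF_sub hA H h hP hK⟩

end Pool.Agent.Results.MP_d19827_al.SubgroupDominance
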